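import Pool.Agent.Q36.VN.Low

set_option autoImplicit false

/-!
# MP_72aa19_al, Q1: the v-number can exceed the regularity along a Noetherian graded filtration

For every field `K` with `2 ≠ 0` (in particular for every infinite one) there are a standard graded
`K`-algebra `R` of finite type and a linear form `t` of `R` such that the powers `I k = (t) ^ k` form
a Noetherian graded filtration with `v(I k) = k + 2` and `reg(I k) = k + 1` for all `k ≥ 1`. So the
answer to Q1 is negative.

The ring is the square zero extension `R = T ⋉ M(-1)` of `T = K[x,y,z,t]` by the free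
`K[y,z,t]`-module `M` of rank five on which `x` acts by a nilpotent matrix of linear forms, a pencil
from the five dimensional representation of `osp(1|2)`. As `x` acts nilpotently,
`H^i_{R_+}(M) = H^i_{(y,z,t)}(K[y,z,t])^5`, so the regularity of `M` is `0`. But the elements of `M`
killed by `x` are the multiples of a vector of degree two. An element `g` whose annihilator modulo
`(t ^ k)` is prime is (modulo `t ^ k`) `t ^ (k-1)` times an element of `M(-1)` killed by `x` modulo `t`,
and such elements have degree at least `3`.

`LCZero` says that the homogeneous part of degree `d` of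
`H^i(I) = colim_s H^i(f 0 ^ s, …, f 3 ^ s; I)` (Koszul cohomology) is zero; the linear forms `f j`
generate an ideal which contains a power of each homogeneous element of positive degree, so this is the
local cohomology with support in `R_+`.
-/

namespace Pool.Agent.Results.MP_72aa19_al.VNumberAboveRegularity

open Q36.VN

universe u

/-- For every field `K` with `2 ≠ 0` there are a standard graded `K`-algebra `R`, a Noetherian ring,
and a linear form `t` such that the ideals `I k = (t) ^ k` form a Noetherian graded filtration with
`v(I k) = k + 2 > k + 1 = reg(I k)` for all `k ≥ 1`. -/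
theorem result (K : Type u) [Field K] (h2 : (2 : K) ≠ 0) :
    ∃ (R : Type u) (_ : CommRing R) (_ : Algebra K R) (𝒜 : ℕ → Submodule K R) (f : Fin 4 → R)
      (I : ℕ → Ideal R),
      Nontrivial R ∧ IsNoetherianRing R ∧ StandardGraded 𝒜 ∧
      DefinesIrrelevant 𝒜 f (fun _ => 1) ∧
      IsGradedFiltration 𝒜 I ∧ IsNoetherianRing (reesRing I) ∧
      (∃ t ∈ 𝒜 1, ∀ k, I k = Ideal.span {t} ^ k) ∧
      ∀ k : ℕ, 1 ≤ k → vNumber 𝒜 (I k) = k + 2 ∧
        regularity 𝒜 (I k) f (fun _ => 1) = ((((k : ℤ) + 1 : ℤ) : ℝ) : EReal) := by
  refine ⟨RR K, inferInstance, inferInstance, GA K, ff K, Ik K, inferInstance, noeth K,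
    standard_GA K, irrelevant_ff K, filtration_Ik K, noetherian_Ik K,
    ⟨ff K 3, ff_mem K 3, Ik_eq K⟩, ?_⟩
  intro k hk
  obtain ⟨k, rfl⟩ := Nat.exists_eq_add_of_le' hk
  exact ⟨vNumber_eq h2 k, regularity_eq (k + 1)⟩

end Pool.Agent.Results.MP_72aa19_al.VNumberAboveRegularity
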